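import Pool.Agent.H14.LJ.Grp

/-!
# The quotients are torus quotients; dimension, determinants, `H^1(X, O_X) = 0`
-/

set_option autoImplicit false
set_option linter.unusedSectionVars false

namespace Pool.Agent.H14.LJ

open Module
open Pool.Agent.W594.SYZ2 Pool.Agent.TH735.AQ Pool.Agent.Y167
open Q276.SYZ (IsGauss isGauss_zero isGauss_one gauss_small isGauss_int)
open Q47.EB.Ex (gauss_mul)

variable {F : Fam}

/-- Gaussian vectors. -/
def IsG (v : V F) : Prop := ∀ j, IsGauss (v.1 j)

theorem IsG.rep {w : V F} (hw : IsG w) : ∃ γ : V F ≃ᵃ[ℂ] V F, Rep γ 1 1 0 w :=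
  exists_rep 1 1 0 w (fun k => by
    have h1 : cc (0 : ZMod F.m) k = 0 := by fin_cases k <;> rfl
    have h2 : et 1 1 k = 1 := by fin_cases k <;> rfl
    rw [h1, h2]
    exact cg_gauss (hw _)) fun b i i' => by
      rw [sub_eq_add_neg]
      exact (hw _).add (hw _).neg

variable (F) in
/-- The lattice of the Gaussian vectors. -/
def Lam : AddSubgroup (V F) where
  carrier := {v | IsG v}
  zero_mem' := fun _ => isGauss_zero
  add_mem' := fun h h' j => (h j).add (h' j)
  neg_mem' := fun h j => (h j).neg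

theorem latt_of_rep {w : V F} {γ : V F ≃ᵃ[ℂ] V F} (h : Rep γ 1 1 0 w) : w ∈ latt (Gam F) := by
  rw [mem_latt]
  have : AffineEquiv.constVAdd ℂ (V F) w = γ := by
    apply AffineEquiv.ext
    intro v
    rw [h.eq, A_one, add_comm]
    rfl
  rw [this]
  exact ⟨1, 1, 0, w, h⟩

theorem latt_of_G {w : V F} (hw : IsG w) : w ∈ latt (Gam F) := by
  obtain ⟨γ, h⟩ := hw.rep
  exact latt_of_rep h

theorem Rep.gauss_q {γ : V F ≃ᵃ[ℂ] V F} {e1 e2 : ℤˣ} {a : ZMod F.m} {w : V F}
    (h : Rep γ e1 e2 a w) (b : B F) (i : ZMod (F.q b.2)) :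
    IsGauss (F.q b.2 * w.1 (Sum.inr ⟨b, i⟩)) := by
  have h1 : ∀ s : Finset (ZMod (F.q b.2)),
      IsGauss (∑ i' ∈ s, (w.1 (Sum.inr ⟨b, i⟩) - w.1 (Sum.inr ⟨b, i'⟩))) := by
    intro s
    classical
    induction s using Finset.induction_on with
    | empty => exact isGauss_zero
    | insert x s hx ih =>
      rw [Finset.sum_insert hx]
      exact (h.diff b i x).add ih
  have h2 := h1 Finset.univ
  rwa [Finset.sum_sub_distrib, w.2 b, sub_zero, Finset.sum_const, Finset.card_univ, ZMod.card,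
    nsmul_eq_mul] at h2

theorem Rep.gauss {γ : V F ≃ᵃ[ℂ] V F} {e1 e2 : ℤˣ} {a : ZMod F.m} {w : V F}
    (h : Rep γ e1 e2 a w) (j : J F) : IsGauss (2 * F.m * w.1 j) := by
  rcases j with k | ⟨b, i⟩
  · exact (h.cong k).gauss
  · obtain ⟨t, ht⟩ := F.dvd b.2
    have h2 := gauss_mul (isGauss_int (2 * t)) (h.gauss_q b i)
    have e : 2 * (F.m : ℂ) * w.1 (Sum.inr ⟨b, i⟩)
        = ((2 * t : ℤ) : ℂ) * (F.q b.2 * w.1 (Sum.inr ⟨b, i⟩)) := by
      have e1 : (F.m : ℂ) = F.q b.2 * t := by exact_mod_cast congrArg (fun x : ℕ => (x : ℂ)) ht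
      rw [e1]
      push_cast
      ring
    rwa [e]

theorem gauss_of_latt {w : V F} (hw : w ∈ latt (Gam F)) (j : J F) :
    IsGauss (2 * F.m * w.1 j) := by
  rw [mem_latt] at hw
  obtain ⟨e1, e2, a, w', h⟩ := hw
  have h0 : w = w' := by
    have h1 : w + 0 = A e1 e2 a 0 + w' := h.eq 0
    rwa [add_zero, map_zero, zero_add] at h1
  rw [h0]
  exact h.gauss j

/-- The elementary vectors. -/
noncomputable def el (j : J F) (z : ℂ) : V F := by
  classical
  exact ⟨fun j' => (if j' = j then z else 0) -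
      (match j with
        | Sum.inl _ => 0
        | Sum.inr p => if j' = Sum.inr ⟨p.1, 0⟩ then z else 0), fun b => by
      rcases j with k | ⟨b', i'⟩
      · simp
      · rw [Finset.sum_sub_distrib]
        by_cases hb : b = b'
        · subst hb
          simp
        · have h1 : ∀ i : ZMod (F.q b.2), ∀ i'' : ZMod (F.q b'.2),
              ¬ ((Sum.inr ⟨b, i⟩ : J F) = Sum.inr ⟨b', i''⟩) := by
            intro i i'' h
            exact hb (congrArg Sigma.fst (Sum.inr.inj h))
          simp [h1]⟩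

theorem el_inl [DecidableEq (J F)] (k : Fin 3) (z : ℂ) (j' : J F) :
    (el (Sum.inl k) z).1 j' = if j' = Sum.inl k then z else 0 := by
  simp only [el, sub_zero]
  congr

theorem el_inr [DecidableEq (J F)] (p : Σ b : B F, ZMod (F.q b.2)) (z : ℂ) (j' : J F) :
    (el (Sum.inr p) z).1 j' = (if j' = Sum.inr p then z else 0)
      - if j' = Sum.inr ⟨p.1, 0⟩ then z else 0 := by
  simp only [el]
  congr

theorem el_G (j : J F) {z : ℂ} (hz : IsGauss z) : IsG (el j z) := by
  classical
  have h1 : ∀ P : Prop, [Decidable P] → IsGauss (if P then z else 0) := by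
    intro P _
    by_cases h : P
    · rwa [if_pos h]
    · rw [if_neg h]
      exact isGauss_zero
  intro j'
  rcases j with k | p
  · rw [el_inl]
    exact h1 _
  · rw [el_inr, sub_eq_add_neg]
    exact (h1 _).add (h1 _).neg

theorem coe_sum {ι : Type} (s : Finset ι) (f : ι → V F) (j : J F) :
    (∑ i ∈ s, f i).1 j = ∑ i ∈ s, (f i).1 j := by
  have : (∑ i ∈ s, f i).1 = ∑ i ∈ s, (f i).1 := by
    push_cast
    rfl
  rw [this, Finset.sum_apply]

theorem decomp (v : V F) : v = ∑ j, el j (v.1 j) := by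
  classical
  refine Subtype.ext (funext fun j' => ?_)
  rw [coe_sum, Fintype.sum_sum_type]
  have e1 : ∑ k : Fin 3, (el (Sum.inl k) (v.1 (Sum.inl k))).1 j'
      = ∑ k : Fin 3, if j' = Sum.inl k then v.1 (Sum.inl k) else 0 :=
    Finset.sum_congr rfl fun k _ => el_inl _ _ _
  have e2 : ∑ p : (Σ b : B F, ZMod (F.q b.2)), (el (Sum.inr p) (v.1 (Sum.inr p))).1 j'
      = ∑ p : (Σ b : B F, ZMod (F.q b.2)), ((if j' = Sum.inr p then v.1 (Sum.inr p) else 0)
        - if j' = Sum.inr ⟨p.1, 0⟩ then v.1 (Sum.inr p) else 0) :=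
    Finset.sum_congr rfl fun p _ => el_inr _ _ _
  rw [e1, e2]
  rcases j' with k' | ⟨b', i'⟩
  · simp
  · rw [Finset.sum_sub_distrib]
    have e3 : ∑ p : (Σ b : B F, ZMod (F.q b.2)),
        (if (Sum.inr ⟨b', i'⟩ : J F) = Sum.inr ⟨p.1, 0⟩ then v.1 (Sum.inr p) else 0) = 0 := by
      rw [Fintype.sum_sigma]
      refine Finset.sum_eq_zero fun b _ => ?_
      by_cases hb : b' = b
      · subst hb
        by_cases hi : i' = 0
        · subst hi
          simpa using v.2 b'
        · simp [hi]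
      · have h1 : ¬ ((Sum.inr ⟨b', i'⟩ : J F) = Sum.inr ⟨b, 0⟩) := fun h =>
          hb (congrArg Sigma.fst (Sum.inr.inj h))
        simp [h1]
    rw [e3, sub_zero]
    simp

theorem el_smul (j : J F) (r : ℝ) (z : ℂ) : el j (r * z) = r • el j z := by
  classical
  refine Subtype.ext (funext fun j' => ?_)
  have e1 : (r • el j z).1 j' = (r : ℂ) * (el j z).1 j' := by
    change r • (el j z).1 j' = _
    rw [Complex.real_smul]
  rw [e1]
  rcases j with k | p
  · rw [el_inl, el_inl, mul_ite, mul_zero]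
  · rw [el_inr, el_inr, mul_sub, mul_ite, mul_ite, mul_zero]

theorem el_add (j : J F) (z z' : ℂ) : el j (z + z') = el j z + el j z' := by
  classical
  refine Subtype.ext (funext fun j' => ?_)
  have e1 : (el j z + el j z').1 j' = (el j z).1 j' + (el j z').1 j' := rfl
  rw [e1]
  rcases j with k | p
  · rw [el_inl, el_inl, el_inl]
    split_ifs <;> ring
  · rw [el_inr, el_inr, el_inr]
    split_ifs <;> ring

theorem span_Lam : Submodule.span ℝ (Lam F : Set (V F)) = ⊤ := by
  rw [Submodule.eq_top_iff']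
  intro v
  rw [decomp v]
  refine Submodule.sum_mem _ fun j _ => ?_
  have h1 : v.1 j = (v.1 j).re * 1 + (v.1 j).im * Complex.I := by
    rw [mul_one, Complex.re_add_im]
  rw [h1, el_add, el_smul, el_smul]
  refine Submodule.add_mem _ (Submodule.smul_mem _ _ (Submodule.subset_span ?_))
    (Submodule.smul_mem _ _ (Submodule.subset_span ?_))
  · exact el_G j isGauss_one
  · exact el_G j (⟨0, 1, by simp⟩ : IsGauss Complex.I)

theorem tq : IsTorusQuotient (Gam F) where
  discrete := by
    have hp0 : (0 : ℝ) < 2 * F.m := by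
      have : (0 : ℝ) < F.m := by exact_mod_cast (NeZero.pos F.m)
      positivity
    refine discreteTopology_iff_isOpen_singleton_zero.mpr
      ⟨Metric.ball 0 (1 / (2 * F.m)), Metric.isOpen_ball, ?_⟩
    ext ⟨v, hv⟩
    simp only [Set.mem_preimage, mem_ball_zero_iff, Set.mem_singleton_iff]
    constructor
    · intro h
      apply Subtype.ext
      refine Subtype.ext (funext fun j => ?_)
      have h1 : ‖v.1 j‖ < 1 / (2 * F.m) := (norm_le_pi_norm v.1 j).trans_lt h
      have h2 : 2 * (F.m : ℂ) * v.1 j = 0 := by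
        apply gauss_small (gauss_of_latt hv j)
        rw [norm_mul, norm_mul, Complex.norm_natCast, Complex.norm_ofNat]
        have := mul_lt_mul_of_pos_left h1 hp0
        rwa [mul_one_div_cancel hp0.ne'] at this
      have h3 : 2 * (F.m : ℂ) ≠ 0 := mul_ne_zero two_ne_zero m_ne
      exact (mul_eq_zero.1 h2).resolve_left h3
    · intro h
      have h' : v = 0 := congrArg Subtype.val h
      rw [h', norm_zero]
      positivity
  span_top := by
    refine top_le_iff.1 ?_
    rw [← span_Lam (F := F)]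
    exact Submodule.span_mono fun w hw => latt_of_G hw
  finite_linear := by
    have hfin : (Set.range fun p : ℤˣ × ℤˣ × ZMod F.m =>
        (A p.1 p.2.1 p.2.2 : V F →ₗ[ℂ] V F)).Finite := Set.finite_range _
    have h : {B : V F ≃ₗ[ℂ] V F | ∃ γ ∈ Gam F, γ.linear = B} ⊆
        (fun B : V F ≃ₗ[ℂ] V F => (B : V F →ₗ[ℂ] V F)) ⁻¹'
          (Set.range fun p : ℤˣ × ℤˣ × ZMod F.m => (A p.1 p.2.1 p.2.2 : V F →ₗ[ℂ] V F)) := by
      rintro _ ⟨γ, ⟨e1, e2, a, w, h⟩, rfl⟩
      exact ⟨(e1, e2, a), LinearMap.ext fun v => (h.linear v).symm⟩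
    exact (hfin.preimage (Set.injOn_of_injective LinearEquiv.toLinearMap_injective)).subset h

/-- The dimension. -/
theorem finrank_V : finrank ℂ (V F) = 3 + 2 * ∑ i, (F.q i - 1) := by
  classical
  let f : (J F → ℂ) →ₗ[ℂ] (B F → ℂ) :=
    { toFun := fun v b => ∑ i : ZMod (F.q b.2), v (Sum.inr ⟨b, i⟩)
      map_add' := fun v w => funext fun b => Finset.sum_add_distrib
      map_smul' := fun c v => funext fun b => (Finset.mul_sum _ _ _).symm }
  have hker : LinearMap.ker f = S F := by
    ext v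
    rw [LinearMap.mem_ker]
    exact funext_iff
  have hsurj : Function.Surjective f := by
    intro y
    refine ⟨fun j => match j with
      | Sum.inl _ => 0
      | Sum.inr p => if p.2 = 0 then y p.1 else 0, funext fun b => ?_⟩
    change ∑ i : ZMod (F.q b.2), (if i = 0 then y b else 0) = y b
    simp
  have h1 := LinearMap.finrank_range_add_finrank_ker f
  rw [LinearMap.range_eq_top.2 hsurj, finrank_top, hker, finrank_fintype_fun_eq_card,
    finrank_fintype_fun_eq_card, Fintype.card_sum, Fintype.card_sigma, Fintype.card_prod,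
    Fintype.card_fin, Fintype.card_bool, Fintype.card_fin, Fintype.sum_prod_type] at h1
  simp only [ZMod.card, Finset.sum_const, Finset.card_univ, Fintype.card_bool, smul_eq_mul] at h1
  have h2 : ∑ i, F.q i = ∑ i, (F.q i - 1) + F.r := by
    have h3 : ∀ i, F.q i = (F.q i - 1) + 1 := fun i => by
      have := NeZero.pos (F.q i)
      omega
    rw [Finset.sum_congr rfl fun i _ => h3 i, Finset.sum_add_distrib]
    simp
  change finrank ℂ (S F) = _
  omega

theorem ca_val (i : Fin F.r) (x : ZMod (F.q i)) : ca i ((x.val : ℕ) : ZMod F.m) = x := by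
  rw [ca_natCast, ZMod.natCast_zmod_val]

/-- `H^1(X, O_X) = 0`. -/
theorem hone : HOneZero (Gam F) := by
  classical
  intro ℓ hℓ
  have hA : ∀ (e1 e2 : ℤˣ) (a : ZMod F.m) (v : V F), ℓ (A e1 e2 a v) = ℓ v := by
    intro e1 e2 a v
    obtain ⟨w, γ, h⟩ := exists_elt e1 e2 a
    have := hℓ γ ⟨e1, e2, a, w, h⟩ v
    rwa [h.linear] at this
  have hel : ∀ (j : J F) (z : ℂ), ℓ (el j z) = 0 := by
    intro j z
    rcases j with k | ⟨b, i⟩
    · obtain ⟨e1, e2, he⟩ : ∃ e1 e2 : ℤˣ, sg e1 e2 k = -1 := by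
        fin_cases k
        · exact ⟨-1, 1, rfl⟩
        · exact ⟨1, -1, rfl⟩
        · exact ⟨-1, 1, rfl⟩
      have h1 : A e1 e2 0 (el (Sum.inl k) z) = -(el (Sum.inl k) z : V F) := by
        refine ext_V (fun k' => ?_) fun b i => ?_
        · change ((sg e1 e2 k' : ℤ) : ℂ) * (el (Sum.inl k) z : V F).1 (Sum.inl k')
            = -(el (Sum.inl k) z : V F).1 (Sum.inl k')
          rw [el_inl]
          by_cases hk : k' = k
          · rw [hk, he]
            simp
          · have : ¬ ((Sum.inl k' : J F) = Sum.inl k) := fun h => hk (Sum.inl.inj h)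
            rw [if_neg this, mul_zero, neg_zero]
        · change (el (Sum.inl k) z : V F).1 (Sum.inr ⟨b, pm e1 (ca b.2 0) i⟩)
            = -(el (Sum.inl k) z : V F).1 (Sum.inr ⟨b, i⟩)
          rw [el_inl, el_inl, if_neg Sum.inr_ne_inl, if_neg Sum.inr_ne_inl, neg_zero]
      have h2 := hA e1 e2 0 (el (Sum.inl k) z)
      rw [h1, map_neg] at h2
      have h3 : (2 : ℂ) * ℓ (el (Sum.inl k) z) = 0 := by linear_combination -h2
      exact (mul_eq_zero.1 h3).resolve_left two_ne_zero
    · have h1 : ∑ x : ZMod (F.q b.2),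
          A 1 1 ((x.val : ℕ) : ZMod F.m) (el (Sum.inr ⟨b, i⟩) z) = (0 : V F) := by
        refine ext_V (fun k' => ?_) fun b' i' => ?_
        · rw [coe_sum]
          refine Finset.sum_eq_zero fun x _ => ?_
          change ((sg 1 1 k' : ℤ) : ℂ) * (el (Sum.inr ⟨b, i⟩) z : V F).1 (Sum.inl k') = 0
          rw [el_inr, if_neg Sum.inl_ne_inr, if_neg Sum.inl_ne_inr, sub_zero, mul_zero]
        · rw [coe_sum]
          change ∑ x : ZMod (F.q b.2), (el (Sum.inr ⟨b, i⟩) z : V F).1
            (Sum.inr ⟨b', pm 1 (ca b'.2 ((x.val : ℕ) : ZMod F.m)) i'⟩) = 0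
          by_cases hb : b' = b
          · subst hb
            have h2 : ∀ x : ZMod (F.q b'.2),
                pm 1 (ca b'.2 ((x.val : ℕ) : ZMod F.m)) i' = i' - x := by
              intro x
              rw [ca_val, pm_apply, cz]
              simp
            simp only [h2]
            rw [← (el (Sum.inr ⟨b', i⟩) z : V F).2 b']
            exact Equiv.sum_comp (Equiv.subLeft i') fun x =>
              (el (Sum.inr ⟨b', i⟩) z : V F).1 (Sum.inr ⟨b', x⟩)
          · refine Finset.sum_eq_zero fun x _ => ?_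
            have h2 : ∀ (y : ZMod (F.q b'.2)) (y' : ZMod (F.q b.2)),
                ¬ ((Sum.inr ⟨b', y⟩ : J F) = Sum.inr ⟨b, y'⟩) := fun y y' h =>
              hb (congrArg Sigma.fst (Sum.inr.inj h))
            rw [el_inr, if_neg (h2 _ _), if_neg (h2 _ _), sub_zero]
      have h2 := congrArg ℓ h1
      rw [map_sum, map_zero, Finset.sum_congr rfl fun x _ => hA _ _ _ _, Finset.sum_const,
        Finset.card_univ, ZMod.card, nsmul_eq_mul] at h2
      exact (mul_eq_zero.1 h2).resolve_left m_ne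
  apply LinearMap.ext
  intro v
  rw [decomp v, map_sum]
  exact Finset.sum_eq_zero fun j _ => hel _ _

end Pool.Agent.H14.LJ
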