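import Pool.Graph.R_pool_sql_team_seeded_3997aac3.Q42.EB.Main

/-!
# The primes which divide the order of the group of the linear parts
-/

set_option autoImplicit false

namespace Pool.Agent.H14.LJ

open Module Polynomial
open Pool.Agent.W594.SYZ2

/-- An integral matrix of prime order `p` has size at least `p - 1`. -/
theorem matrix_order {n p : ℕ} (hp : p.Prime) (M : Matrix (Fin n) (Fin n) ℤ) (h1 : M ^ p = 1)
    (h2 : M ≠ 1) : p ≤ n + 1 := by
  have := Fact.mk hp
  obtain ⟨N, hNM⟩ : ∃ N : Matrix (Fin n) (Fin n) ℚ, N = (Int.castRingHom ℚ).mapMatrix M := ⟨_, rfl⟩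
  have hN : N ^ p = 1 := by rw [hNM, ← map_pow, h1, map_one]
  have hN1 : N ≠ 1 := by
    intro h
    apply h2
    ext i j
    have h3 := congrFun (congrFun (hNM.symm.trans h) i) j
    by_cases hij : i = j
    · subst hij
      rw [Matrix.one_apply_eq] at h3 ⊢
      change ((M i i : ℤ) : ℚ) = 1 at h3
      exact_mod_cast h3
    · rw [Matrix.one_apply_ne hij] at h3 ⊢
      change ((M i j : ℤ) : ℚ) = 0 at h3
      exact_mod_cast h3
  have hirr := cyclotomic.irreducible_rat hp.pos
  have hdvd : cyclotomic p ℚ ∣ minpoly ℚ N := by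
    by_contra hcon
    obtain ⟨a, b, hab⟩ := (hirr.coprime_iff_not_dvd).2 hcon
    have h3 : aeval N (a * cyclotomic p ℚ + b * minpoly ℚ N) = 1 := by rw [hab, map_one]
    rw [map_add, map_mul, map_mul, minpoly.aeval, mul_zero, add_zero] at h3
    have h4 : aeval N (cyclotomic p ℚ) * (N - 1) = 0 := by
      have h5 := congrArg (aeval N) (cyclotomic_prime_mul_X_sub_one ℚ p)
      rw [map_mul, map_sub, map_sub, map_pow, aeval_X, map_one, hN, sub_self] at h5
      exact h5
    refine hN1 (sub_eq_zero.1 ?_)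
    calc N - 1 = aeval N a * aeval N (cyclotomic p ℚ) * (N - 1) := by rw [h3, one_mul]
      _ = 0 := by rw [mul_assoc, h4, mul_zero]
  have h5 := hdvd.trans (Matrix.minpoly_dvd_charpoly N)
  have h6 := natDegree_le_of_dvd h5 (Matrix.charpoly_monic N).ne_zero
  rw [natDegree_cyclotomic, Nat.totient_prime hp, Matrix.charpoly_natDegree_eq_dim,
    Fintype.card_fin] at h6
  omega

/-- The prime divisors of the order of the group of the linear parts are at most `2 d + 1`. -/
theorem prime_le {V : Type*} [NormedAddCommGroup V] [NormedSpace ℂ V] [FiniteDimensional ℂ V]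
    {Γ : Subgroup (V ≃ᵃ[ℂ] V)} (hΓ : IsTorusQuotient Γ) {p : ℕ} (hp : p.Prime)
    (h : p ∣ Pool.Agent.Q42.EB.order Γ) : p ≤ 2 * finrank ℂ V + 1 := by
  have := TQ.finite_Lin hΓ
  have := Fact.mk hp
  obtain ⟨⟨B, γ, hγ, hB⟩, hg⟩ := exists_prime_orderOf_dvd_card' (G := TQ.Lin Γ) p h
  have : FiniteDimensional ℝ V := FiniteDimensional.complexToReal V
  obtain ⟨Λ, hΛ⟩ : ∃ Λ : Submodule ℤ V, Λ = AddSubgroup.toIntSubmodule (latt Γ) := ⟨_, rfl⟩
  have hmem : ∀ v, v ∈ Λ ↔ v ∈ latt Γ := fun v => by rw [hΛ]; rfl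
  have : DiscreteTopology Λ := by rw [hΛ]; exact hΓ.discrete
  have : IsZLattice ℝ Λ := ⟨by rw [hΛ]; exact hΓ.span_top⟩
  have : Module.Finite ℤ Λ := ZLattice.module_finite ℝ Λ
  have : Module.Free ℤ Λ := ZLattice.module_free ℝ Λ
  have hrank : finrank ℤ Λ = finrank ℝ V := ZLattice.rank ℝ Λ
  have hinv : ∀ v ∈ Λ, B v ∈ Λ := fun v hv => by
    have hB' : γ.linear = B := hB
    rw [hmem, ← hB']
    exact TQ.latt_inv γ hγ ((hmem v).1 hv)
  have hpow : B ^ p = 1 := by
    have h1 := pow_orderOf_eq_one (⟨B, γ, hγ, hB⟩ : TQ.Lin Γ)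
    rw [hg] at h1
    exact congrArg Subtype.val h1
  obtain ⟨C, hC⟩ : ∃ C : Λ →ₗ[ℤ] Λ, ∀ x : Λ, ((C x : Λ) : V) = B x :=
    ⟨{ toFun := fun x => ⟨B x, hinv x x.2⟩
       map_add' := fun x y => Subtype.ext (map_add B (x : V) y)
       map_smul' := fun c x => Subtype.ext (by
        change B (c • (x : V)) = c • B (x : V)
        exact map_zsmul B c (x : V)) }, fun x => rfl⟩
  have hCn : ∀ (n : ℕ) (x : Λ), (((C ^ n) x : Λ) : V) = (B ^ n) x := by
    intro n
    induction n with
    | zero => intro x; rfl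
    | succ n ih =>
      intro x
      rw [pow_succ, pow_succ, Module.End.mul_apply, ih, hC]
      rfl
  have hCp : C ^ p = 1 := LinearMap.ext fun x => Subtype.ext (by
    rw [hCn, hpow]
    rfl)
  have hC1 : C ≠ 1 := by
    intro hcon
    have h1 : ∀ v : V, B v = v := by
      intro v
      have hv : v ∈ Submodule.span ℝ (latt Γ : Set V) := by rw [hΓ.span_top]; trivial
      induction hv using Submodule.span_induction with
      | mem x hx =>
        have h2 := hC ⟨x, (hmem x).2 hx⟩
        rw [hcon] at h2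
        exact h2.symm
      | zero => exact map_zero B
      | add x y _ _ hx hy => rw [map_add, hx, hy]
      | smul a x _ hx =>
        have h3 : a • x = (a : ℂ) • x := (Complex.coe_smul a x).symm
        rw [h3, map_smul, hx]
    have h2 : (⟨B, γ, hγ, hB⟩ : TQ.Lin Γ) = 1 := Subtype.ext (LinearEquiv.ext h1)
    rw [h2, orderOf_one] at hg
    exact hp.one_lt.ne hg
  have h3 := matrix_order hp (LinearMap.toMatrixAlgEquiv (Module.finBasis ℤ Λ) C)
    (by rw [← map_pow, hCp, map_one]) (fun hcon => hC1 ((LinearMap.toMatrixAlgEquiv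
      (Module.finBasis ℤ Λ)).injective (by rw [hcon, map_one])))
  rwa [hrank, finrank_real_of_complex] at h3

end Pool.Agent.H14.LJ
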